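import Mathlib
import Pool.Agent.Helper442.FE.Link

set_option autoImplicit false

/-!
# The ratios arc-complexity / size of gammoids are dense

(1) Adding coloops does not change the arc-complexity. (2) The ratio is unbounded: the gammoids
represented by bipartite digraphs from `Fin m` to `Fin m` are `2 ^ (m ^ 2)` many, and fewer than
that have a standard representation with at most `2 K m` arcs when `m` is large. (3) A gammoid with
a large ratio, together with the right number of coloops, gives a ratio in any given interval.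
-/

namespace Pool.Agent.Results.MP_1bde1f_co.DenseRatios

open Set

/-- A path of the digraph with vertex set `V` and arc set `A`: a nonempty sequence of distinct
vertices, consecutive ones joined by arcs. -/
def IsPath {V : Type} (A : Set (V × V)) (p : List V) : Prop :=
  p ≠ [] ∧ p.Nodup ∧ p.IsChain (fun u v => (u, v) ∈ A)

/-- `R` is a routing from `X` to `T`: a set of pairwise vertex-disjoint paths such that every
`x ∈ X` is the first vertex of some path in `R` and every path in `R` ends in `T`. -/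
def IsRouting {V : Type} (A : Set (V × V)) (R : Set (List V)) (X T : Set V) : Prop :=
  (∀ p ∈ R, IsPath A p) ∧ (∀ p ∈ R, ∀ q ∈ R, p ≠ q → List.Disjoint p q) ∧
    (∀ x ∈ X, ∃ p ∈ R, p.head? = some x) ∧ (∀ p ∈ R, ∃ t ∈ T, p.getLast? = some t)

/-- `M` is a gammoid: it is represented by some finite digraph `(V, A)` and some set `T ⊆ V` of
targets. The ground set of the representation is the image of the ground set of `M` under the
injective map `f`. -/
def IsGammoid {α : Type} (M : Matroid α) : Prop :=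
  ∃ (V : Type) (_ : Finite V) (A : Set (V × V)) (T : Set V) (f : α → V),
    InjOn f M.E ∧ ∀ X ⊆ M.E, M.Indep X ↔ ∃ R, IsRouting A R (f '' X) T

/-- `((V, A), T, E)` is a standard representation of the matroid `M`. The ground set `E ⊆ V` is
given as the image of the ground set of `M` under the injective map `f`, and `T` is a subset of
the ground set of `M`. -/
structure IsStandardRep {α : Type} (M : Matroid α) (V : Type) (A : Set (V × V)) (T : Set α)
    (f : α → V) : Prop where
  inj : InjOn f M.E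
  subset : T ⊆ M.E
  sink : ∀ t ∈ T, ∀ v, (f t, v) ∉ A
  source : ∀ e ∈ M.E, e ∉ T → ∀ v, (v, f e) ∉ A
  indep : ∀ X ⊆ M.E, M.Indep X ↔ ∃ R, IsRouting A R (f '' X) (f '' T)

/-- The arc-complexity of `M`: the least number of arcs of a standard representation of `M`. -/
noncomputable def arcC {α : Type} (M : Matroid α) : ℕ :=
  sInf {k | ∃ (V : Type) (_ : Finite V) (A : Set (V × V)) (T : Set α) (f : α → V),
    IsStandardRep M V A T f ∧ A.ncard = k}

/-- The set `S` of the ratios `arcC(M) / |E|` of the gammoids `M` on nonempty finite ground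
sets `E`. -/
def ratios : Set ℝ :=
  {q | ∃ (α : Type) (M : Matroid α), M.E.Finite ∧ M.E.Nonempty ∧ IsGammoid M ∧
    q = (arcC M : ℝ) / (M.E.ncard : ℝ)}

/-! ### Paths and routings -/

section Basic

variable {V : Type} {A : Set (V × V)}

lemma getLast_of_sink {c : V} (hc : ∀ v, (c, v) ∉ A) :
    ∀ p : List V, p.IsChain (fun u v => (u, v) ∈ A) → c ∈ p → p.getLast? = some c
  | [], _, h => absurd h List.not_mem_nil
  | [x], _, h => by
      rw [List.mem_singleton] at h
      rw [h]; rfl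
  | x :: y :: l, hch, h => by
      rw [List.isChain_cons_cons] at hch
      rcases List.mem_cons.1 h with rfl | h
      · exact absurd hch.1 (hc _)
      · rw [List.getLast?_cons_cons]
        exact getLast_of_sink hc (y :: l) hch.2 h

lemma head_of_source {c : V} (hc : ∀ v, (v, c) ∉ A) :
    ∀ p : List V, p.IsChain (fun u v => (u, v) ∈ A) → c ∈ p → p.head? = some c
  | [], _, h => absurd h List.not_mem_nil
  | [x], _, h => by
      rw [List.mem_singleton] at h
      rw [h]; rfl
  | x :: y :: l, hch, h => by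
      rw [List.isChain_cons_cons] at hch
      rcases List.mem_cons.1 h with rfl | h
      · rfl
      · have h1 := head_of_source hc (y :: l) hch.2 h
        rw [List.head?_cons, Option.some.injEq] at h1
        rw [h1] at hch
        exact absurd hch.1 (hc _)

/-- a path that starts at a sink is trivial -/
lemma eq_of_head_sink {c : V} (hc : ∀ v, (c, v) ∉ A) {p : List V} (hp : IsPath A p)
    (h : p.head? = some c) : p = [c] := by
  rcases p with _ | ⟨x, _ | ⟨y, l⟩⟩
  · simp at h
  · simpa using h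
  · rw [List.head?_cons, Option.some.injEq] at h
    rw [h] at hp
    have h1 := hp.2.2
    rw [List.isChain_cons_cons] at h1
    exact absurd h1.1 (hc _)

lemma IsRouting.mono {R : Set (List V)} {X X' T T' : Set V} (h : IsRouting A R X T)
    (hX : X' ⊆ X) (hT : T ⊆ T') : IsRouting A R X' T' :=
  ⟨h.1, h.2.1, fun x hx => h.2.2.1 x (hX hx), fun p hp => by
    obtain ⟨t, ht, h'⟩ := h.2.2.2 p hp
    exact ⟨t, hT ht, h'⟩⟩

/-- sinks of the source set are used by no other path -/
lemma routing_sinks {S T C : Set V} (hC : ∀ c ∈ C, ∀ v, (c, v) ∉ A) (hS : Disjoint C S)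
    (hT : Disjoint C T) :
    (∃ R, IsRouting A R (S ∪ C) (T ∪ C)) ↔ ∃ R, IsRouting A R S T := by
  constructor
  · rintro ⟨R, h1, h2, h3, h4⟩
    refine ⟨{p ∈ R | ∀ c ∈ C, p.getLast? ≠ some c}, fun p hp => h1 p hp.1,
      fun p hp q hq => h2 p hp.1 q hq.1, ?_, ?_⟩
    · intro x hx
      obtain ⟨p, hp, hpx⟩ := h3 x (Or.inl hx)
      refine ⟨p, ⟨hp, ?_⟩, hpx⟩
      intro c hc hlast
      obtain ⟨q, hq, hqc⟩ := h3 c (Or.inr hc)
      have h5 := eq_of_head_sink (hC c hc) (h1 q hq) hqc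
      have h6 : p = q := by
        by_contra hne
        exact h2 p hp q hq hne (List.mem_of_getLast? hlast) (by rw [h5]; exact List.mem_singleton_self c)
      rw [h6, hqc, Option.some.injEq] at hpx
      rw [hpx] at hc
      exact (Set.disjoint_left.1 hS hc) hx
    · rintro p ⟨hp, hlast⟩
      obtain ⟨t, ht, h5⟩ := h4 p hp
      rcases ht with ht | ht
      · exact ⟨t, ht, h5⟩
      · exact absurd h5 (hlast t ht)
  · rintro ⟨R, h1, h2, h3, h4⟩
    have key : ∀ p ∈ R, ∀ c ∈ C, c ∉ p := by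
      intro p hp c hc hcp
      have h5 := getLast_of_sink (hC c hc) p (h1 p hp).2.2 hcp
      obtain ⟨t, ht, h6⟩ := h4 p hp
      rw [h5, Option.some.injEq] at h6
      rw [← h6] at ht
      exact Set.disjoint_left.1 hT hc ht
    refine ⟨R ∪ (fun c => [c]) '' C, ?_, ?_, ?_, ?_⟩
    · rintro p (hp | ⟨c, _, rfl⟩)
      · exact h1 p hp
      · exact ⟨by simp, by simp, by simp⟩
    · rintro p (hp | ⟨c, hc, rfl⟩) q (hq | ⟨d, hd, rfl⟩) hpq
      · exact h2 p hp q hq hpq
      · intro v hv hv'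
        rw [List.mem_singleton] at hv'
        exact key p hp d hd (hv' ▸ hv)
      · intro v hv' hv
        rw [List.mem_singleton] at hv'
        exact key q hq c hc (hv' ▸ hv)
      · intro v hv hv'
        rw [List.mem_singleton] at hv hv'
        apply hpq
        show [c] = [d]
        rw [← hv, ← hv']
    · rintro x (hx | hx)
      · obtain ⟨p, hp, hpx⟩ := h3 x hx
        exact ⟨p, Or.inl hp, hpx⟩
      · exact ⟨[x], Or.inr ⟨x, hx, rfl⟩, rfl⟩
    · rintro p (hp | ⟨c, hc, rfl⟩)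
      · obtain ⟨t, ht, h5⟩ := h4 p hp
        exact ⟨t, Or.inl ht, h5⟩
      · exact ⟨c, Or.inr hc, rfl⟩

/-- targets that no arc enters are not used by paths that start elsewhere -/
lemma routing_isolated {R : Set (List V)} {S T C : Set V} (hC : ∀ c ∈ C, ∀ v, (v, c) ∉ A)
    (hS : Disjoint C S) (h : IsRouting A R S (T ∪ C)) : ∃ R, IsRouting A R S T := by
  obtain ⟨h1, h2, h3, h4⟩ := h
  refine ⟨{p ∈ R | ∀ c ∈ C, p.getLast? ≠ some c}, fun p hp => h1 p hp.1,
    fun p hp q hq => h2 p hp.1 q hq.1, ?_, ?_⟩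
  · intro x hx
    obtain ⟨p, hp, hpx⟩ := h3 x hx
    refine ⟨p, ⟨hp, ?_⟩, hpx⟩
    intro c hc hlast
    have h5 := head_of_source (hC c hc) p (h1 p hp).2.2 (List.mem_of_getLast? hlast)
    rw [hpx, Option.some.injEq] at h5
    rw [h5] at hx
    exact Set.disjoint_left.1 hS hc hx
  · rintro p ⟨hp, hlast⟩
    obtain ⟨t, ht, h5⟩ := h4 p hp
    rcases ht with ht | ht
    · exact ⟨t, ht, h5⟩
    · exact absurd h5 (hlast t ht)

end Basic

/-! ### Transport of a representation along a map -/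

section Transport

variable {V V' : Type} {A : Set (V × V)}

/-- the image of an arc set -/
def mapArcs (g : V → V') (A : Set (V × V)) : Set (V' × V') := (fun p => (g p.1, g p.2)) '' A

lemma mem_of_chain {W : Set V} (hA : ∀ p ∈ A, p.1 ∈ W ∧ p.2 ∈ W) {t : V} (ht : t ∈ W) :
    ∀ p : List V, p.IsChain (fun u v => (u, v) ∈ A) → p.getLast? = some t → ∀ v ∈ p, v ∈ W
  | [], _, h => by simp at h
  | [x], _, h => by
      simp only [List.getLast?_singleton, Option.some.injEq] at h
      intro v hv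
      rw [List.mem_singleton] at hv
      rw [hv, h]
      exact ht
  | x :: y :: l, hch, h => by
      rw [List.isChain_cons_cons] at hch
      rw [List.getLast?_cons_cons] at h
      intro v hv
      rcases List.mem_cons.1 hv with rfl | hv
      · exact (hA _ hch.1).1
      · exact mem_of_chain hA ht (y :: l) hch.2 h v hv

lemma exists_lift {W : Set V} (hA : ∀ p ∈ A, p.1 ∈ W ∧ p.2 ∈ W) {g : V → V'} (hg : InjOn g W)
    {t : V} (ht : t ∈ W) :
    ∀ p : List V', p.IsChain (fun u v => (u, v) ∈ mapArcs g A) → p.getLast? = some (g t) →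
      ∃ q : List V, (∀ v ∈ q, v ∈ W) ∧ q.IsChain (fun u v => (u, v) ∈ A) ∧ q.map g = p
  | [], _, h => by simp at h
  | [x], _, h => by
      simp only [List.getLast?_singleton, Option.some.injEq] at h
      exact ⟨[t], by simpa using ht, by simp, by simp [h]⟩
  | x :: y :: l, hch, h => by
      rw [List.isChain_cons_cons] at hch
      rw [List.getLast?_cons_cons] at h
      obtain ⟨q, hq1, hq2, hq3⟩ := exists_lift hA hg ht (y :: l) hch.2 h
      obtain ⟨⟨a, b⟩, hab, hxy⟩ := hch.1
      rw [Prod.mk.injEq] at hxy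
      simp only at hxy
      rcases q with _ | ⟨z, q⟩
      · simp at hq3
      · simp only [List.map_cons, List.cons.injEq] at hq3
        have hz : b = z := hg (hA _ hab).2 (hq1 z List.mem_cons_self) (by rw [hxy.2, hq3.1])
        refine ⟨a :: z :: q, ?_, ?_, ?_⟩
        · intro v hv
          rcases List.mem_cons.1 hv with rfl | hv
          · exact (hA _ hab).1
          · exact hq1 v hv
        · rw [List.isChain_cons_cons]
          exact ⟨hz ▸ hab, hq2⟩
        · simp only [List.map_cons, hxy.1, hq3.1, hq3.2]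

lemma map_inj {W : Set V} {g : V → V'} (hg : InjOn g W) :
    ∀ p q : List V, (∀ v ∈ p, v ∈ W) → (∀ v ∈ q, v ∈ W) → p.map g = q.map g → p = q
  | [], [], _, _, _ => rfl
  | [], _ :: _, _, _, h => by simp at h
  | _ :: _, [], _, _, h => by simp at h
  | x :: p, y :: q, hp, hq, h => by
      simp only [List.map_cons, List.cons.injEq] at h
      rw [hg (hp x List.mem_cons_self) (hq y List.mem_cons_self) h.1,
        map_inj hg p q (fun v hv => hp v (List.mem_cons_of_mem _ hv))
          (fun v hv => hq v (List.mem_cons_of_mem _ hv)) h.2]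

lemma transport {W S T : Set V} (hA : ∀ p ∈ A, p.1 ∈ W ∧ p.2 ∈ W) {g : V → V'}
    (hg : InjOn g W) (hS : S ⊆ W) (hT : T ⊆ W) :
    (∃ R, IsRouting A R S T) ↔ ∃ R, IsRouting (mapArcs g A) R (g '' S) (g '' T) := by
  constructor
  · rintro ⟨R, h1, h2, h3, h4⟩
    have hW : ∀ p ∈ R, ∀ v ∈ p, v ∈ W := by
      intro p hp
      obtain ⟨t, ht, h5⟩ := h4 p hp
      exact mem_of_chain hA (hT ht) p (h1 p hp).2.2 h5
    refine ⟨(List.map g) '' R, ?_, ?_, ?_, ?_⟩
    · rintro _ ⟨p, hp, rfl⟩
      refine ⟨by simpa using (h1 p hp).1, ?_, ?_⟩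
      · exact List.Nodup.map_on (fun x hx y hy h => hg (hW p hp x hx) (hW p hp y hy) h)
          (h1 p hp).2.1
      · rw [List.isChain_map]
        exact (h1 p hp).2.2.imp fun a b hab => ⟨(a, b), hab, rfl⟩
    · rintro _ ⟨p, hp, rfl⟩ _ ⟨q, hq, rfl⟩ hpq
      intro v hv hv'
      obtain ⟨a, ha, rfl⟩ := List.mem_map.1 hv
      obtain ⟨b, hb, hab⟩ := List.mem_map.1 hv'
      have h5 : b = a := hg (hW q hq b hb) (hW p hp a ha) hab
      rw [h5] at hb
      exact h2 p hp q hq (fun h => hpq (by rw [h])) ha hb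
    · rintro _ ⟨x, hx, rfl⟩
      obtain ⟨p, hp, hpx⟩ := h3 x hx
      exact ⟨p.map g, ⟨p, hp, rfl⟩, by rw [List.head?_map, hpx]; rfl⟩
    · rintro _ ⟨p, hp, rfl⟩
      obtain ⟨t, ht, h5⟩ := h4 p hp
      exact ⟨g t, ⟨t, ht, rfl⟩, by rw [List.getLast?_map, h5]; rfl⟩
  · rintro ⟨R, h1, h2, h3, h4⟩
    have hlift : ∀ p ∈ R, ∃ q : List V, (∀ v ∈ q, v ∈ W) ∧ IsPath A q ∧ q.map g = p := by
      intro p hp
      obtain ⟨_, ⟨t, ht, rfl⟩, h5⟩ := h4 p hp
      obtain ⟨q, hq1, hq2, hq3⟩ := exists_lift hA hg (hT ht) p (h1 p hp).2.2 h5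
      refine ⟨q, hq1, ⟨?_, ?_, hq2⟩, hq3⟩
      · rintro rfl
        exact (h1 p hp).1 (by rw [← hq3]; rfl)
      · exact List.Nodup.of_map g (by rw [hq3]; exact (h1 p hp).2.1)
    refine ⟨{q | (∀ v ∈ q, v ∈ W) ∧ IsPath A q ∧ q.map g ∈ R}, fun q hq => hq.2.1, ?_, ?_, ?_⟩
    · intro p hp q hq hpq v hv hv'
      have h5 : p.map g ≠ q.map g := fun h => hpq (map_inj hg p q hp.1 hq.1 h)
      exact h2 _ hp.2.2 _ hq.2.2 h5 (List.mem_map_of_mem hv) (List.mem_map_of_mem hv')
    · intro x hx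
      obtain ⟨p, hp, hpx⟩ := h3 (g x) ⟨x, hx, rfl⟩
      obtain ⟨q, hq1, hq2, hq3⟩ := hlift p hp
      refine ⟨q, ⟨hq1, hq2, by rw [hq3]; exact hp⟩, ?_⟩
      rcases q with _ | ⟨z, q⟩
      · exact absurd rfl hq2.1
      · rw [← hq3, List.map_cons, List.head?_cons, Option.some.injEq] at hpx
        rw [List.head?_cons, hg (hq1 z List.mem_cons_self) (hS hx) hpx]
    · rintro q ⟨hq1, hq2, hq3⟩
      obtain ⟨_, ⟨t, ht, rfl⟩, h5⟩ := h4 _ hq3
      rw [List.getLast?_map] at h5
      obtain ⟨y, hy, hyt⟩ := Option.map_eq_some_iff.1 h5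
      exact ⟨t, ht, by rw [hy, hg (hq1 y (List.mem_of_getLast? hy)) (hT ht) hyt]⟩

end Transport

/-! ### Adding coloops -/

section Coloops

variable {α β : Type}

/-- `M` with the elements of `β` added as coloops -/
noncomputable def addC (M : Matroid α) (β : Type) : Matroid (α ⊕ β) :=
  M.sum (Matroid.freeOn (univ : Set β))

lemma addC_ground (M : Matroid α) : (addC M β).E = Sum.inl '' M.E ∪ range Sum.inr := by
  unfold addC
  rw [Matroid.sum_ground, Matroid.freeOn_ground, image_univ]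

lemma addC_indep (M : Matroid α) (X : Set (α ⊕ β)) :
    (addC M β).Indep X ↔ M.Indep (Sum.inl ⁻¹' X) := by
  unfold addC
  rw [Matroid.sum_indep_iff, Matroid.freeOn_indep_iff]
  simp

lemma rep_extend {M : Matroid α} {V : Type} {A : Set (V × V)} {T : Set α} {f : α → V}
    (h : IsStandardRep M V A T f) :
    IsStandardRep (addC M β) (V ⊕ β) (mapArcs Sum.inl A) (Sum.inl '' T ∪ range Sum.inr)
      (Sum.map f id) where
  inj := by
    rw [addC_ground]
    rintro _ (⟨x, hx, rfl⟩ | ⟨x, rfl⟩) _ (⟨y, hy, rfl⟩ | ⟨y, rfl⟩) hxy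
    · simp only [Sum.map_inl, Sum.inl.injEq] at hxy
      rw [h.inj hx hy hxy]
    · simp at hxy
    · simp at hxy
    · simpa using hxy
  subset := by
    rw [addC_ground]
    exact union_subset_union_left _ (image_mono h.subset)
  sink := by
    rintro _ (⟨t, ht, rfl⟩ | ⟨b, rfl⟩) v ⟨⟨x, y⟩, hxy, hv⟩
    · simp only [Sum.map_inl, Prod.mk.injEq, Sum.inl.injEq] at hv
      rw [hv.1] at hxy
      exact h.sink t ht _ hxy
    · simp at hv
  source := by
    rw [addC_ground]
    rintro _ (⟨e, he, rfl⟩ | ⟨b, rfl⟩) hT v ⟨⟨x, y⟩, hxy, hv⟩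
    · simp only [Sum.map_inl, Prod.mk.injEq, Sum.inl.injEq] at hv
      rw [hv.2] at hxy
      exact h.source e he (fun h' => hT (Or.inl ⟨e, h', rfl⟩)) _ hxy
    · exact hT (Or.inr ⟨b, rfl⟩)
  indep := by
    intro X hX
    have hX' : Sum.inl ⁻¹' X ⊆ M.E := by
      intro x hx
      have := hX hx
      rw [addC_ground] at this
      rcases this with ⟨y, hy, hyx⟩ | ⟨y, hyx⟩
      · rw [← Sum.inl_injective hyx]; exact hy
      · simp at hyx
    have e1 : (Sum.inl : V → V ⊕ β) '' (f '' (Sum.inl ⁻¹' X)) ⊆ Sum.map f id '' X := by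
      rintro _ ⟨_, ⟨x, hx, rfl⟩, rfl⟩
      exact ⟨Sum.inl x, hx, rfl⟩
    have e2 : Sum.map f (id : β → β) '' X ⊆ Sum.inl '' (f '' (Sum.inl ⁻¹' X)) ∪ range Sum.inr := by
      rintro _ ⟨x | b, hx, rfl⟩
      · exact Or.inl ⟨_, ⟨x, hx, rfl⟩, rfl⟩
      · exact Or.inr ⟨b, rfl⟩
    have e3 : Sum.map f (id : β → β) '' (Sum.inl '' T ∪ range Sum.inr) =
        Sum.inl '' (f '' T) ∪ range Sum.inr := by
      rw [image_union]
      congr 1
      · rw [image_image, image_image]; rfl
      · rw [← range_comp]; rfl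
    have e4 : ∀ S : Set V, Disjoint (range (Sum.inr : β → V ⊕ β)) (Sum.inl '' S) := by
      intro S
      rw [Set.disjoint_left]
      rintro _ ⟨b, rfl⟩ ⟨x, _, hx⟩
      simp at hx
    rw [addC_indep, h.indep _ hX', transport (W := univ) (g := (Sum.inl : V → V ⊕ β))
      (fun _ _ => ⟨mem_univ _, mem_univ _⟩) Sum.inl_injective.injOn (subset_univ _)
      (subset_univ _), e3]
    constructor
    · intro h'
      obtain ⟨R, hR⟩ := (routing_sinks (C := range (Sum.inr : β → V ⊕ β)) (by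
        rintro _ ⟨b, rfl⟩ v ⟨⟨x, y⟩, _, hv⟩
        simp at hv) (e4 _) (e4 _)).2 h'
      exact ⟨R, hR.mono e2 subset_rfl⟩
    · rintro ⟨R, hR⟩
      exact routing_isolated (C := range (Sum.inr : β → V ⊕ β)) (by
        rintro _ ⟨b, rfl⟩ v ⟨⟨x, y⟩, _, hv⟩
        simp at hv) (e4 _) (hR.mono e1 subset_rfl)

lemma rep_restrict {M : Matroid α} {V : Type} {A : Set (V × V)} {T : Set (α ⊕ β)}
    {f : α ⊕ β → V} (h : IsStandardRep (addC M β) V A T f) :
    IsStandardRep M V A (Sum.inl ⁻¹' T) (f ∘ Sum.inl) := by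
  have hE : ∀ x ∈ M.E, (Sum.inl x : α ⊕ β) ∈ (addC M β).E := by
    intro x hx
    rw [addC_ground]
    exact Or.inl ⟨x, hx, rfl⟩
  have hEr : ∀ b : β, (Sum.inr b : α ⊕ β) ∈ (addC M β).E := by
    intro b
    rw [addC_ground]
    exact Or.inr ⟨b, rfl⟩
  have hsub : Sum.inl ⁻¹' T ⊆ M.E := by
    intro x hx
    have := h.subset hx
    rw [addC_ground] at this
    rcases this with ⟨y, hy, hyx⟩ | ⟨y, hyx⟩
    · rw [← Sum.inl_injective hyx]; exact hy
    · simp at hyx
  -- the coloops are targets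
  have hC : ∀ b : β, (Sum.inr b : α ⊕ β) ∈ T := by
    intro b
    by_contra hb
    have h1 : (addC M β).Indep T := by
      rw [h.indep T h.subset]
      refine ⟨(fun t => [f t]) '' T, ?_, ?_, ?_, ?_⟩
      · rintro _ ⟨t, _, rfl⟩
        exact ⟨by simp, by simp, by simp⟩
      · rintro _ ⟨t, _, rfl⟩ _ ⟨t', _, rfl⟩ hne v hv hv'
        rw [List.mem_singleton] at hv hv'
        apply hne
        show [f t] = [f t']
        rw [← hv, ← hv']
      · rintro _ ⟨t, ht, rfl⟩
        exact ⟨[f t], ⟨t, ht, rfl⟩, rfl⟩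
      · rintro _ ⟨t, ht, rfl⟩
        exact ⟨f t, ⟨t, ht, rfl⟩, rfl⟩
    have h2 : (addC M β).Indep (insert (Sum.inr b) T) := by
      rw [addC_indep] at h1 ⊢
      have : Sum.inl ⁻¹' (insert (Sum.inr b) T) = (Sum.inl ⁻¹' T : Set α) := by
        ext x; simp
      rw [this]
      exact h1
    obtain ⟨R, r1, r2, r3, r4⟩ := (h.indep _ (insert_subset (hEr b) h.subset)).1 h2
    obtain ⟨p, hp, hpb⟩ := r3 (f (Sum.inr b)) ⟨_, mem_insert _ _, rfl⟩
    obtain ⟨_, ⟨t, ht, rfl⟩, hpt⟩ := r4 p hp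
    obtain ⟨q, hq, hqt⟩ := r3 (f t) ⟨t, mem_insert_of_mem _ ht, rfl⟩
    have h3 := eq_of_head_sink (h.sink t ht) (r1 q hq) hqt
    have h4 : p = q := by
      by_contra hne
      exact r2 p hp q hq hne (List.mem_of_getLast? hpt)
        (by rw [h3]; exact List.mem_singleton_self _)
    rw [h4, hqt, Option.some.injEq] at hpb
    exact hb (h.inj (h.subset ht) (hEr b) hpb ▸ ht)
  refine ⟨?_, hsub, ?_, ?_, ?_⟩
  · intro x hx y hy hxy
    exact Sum.inl_injective (h.inj (hE x hx) (hE y hy) hxy)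
  · intro t ht v
    exact h.sink _ ht v
  · intro e he heT v
    exact h.source _ (hE e he) heT v
  · intro X hX
    have e1 : (addC M β).Indep (Sum.inl '' X ∪ range Sum.inr) ↔ M.Indep X := by
      rw [addC_indep]
      have : Sum.inl ⁻¹' (Sum.inl '' X ∪ range (Sum.inr : β → α ⊕ β)) = X := by
        ext x; simp
      rw [this]
    have e2 : Sum.inl '' X ∪ range Sum.inr ⊆ (addC M β).E := by
      rw [addC_ground]
      exact union_subset_union_left _ (image_mono hX)
    have e3 : f '' T = (f ∘ Sum.inl) '' (Sum.inl ⁻¹' T) ∪ f '' range Sum.inr := by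
      apply Subset.antisymm
      · rintro _ ⟨t | b, ht, rfl⟩
        · exact Or.inl ⟨t, ht, rfl⟩
        · exact Or.inr ⟨_, ⟨b, rfl⟩, rfl⟩
      · rintro _ (⟨t, ht, rfl⟩ | ⟨_, ⟨b, rfl⟩, rfl⟩)
        · exact ⟨_, ht, rfl⟩
        · exact ⟨_, hC b, rfl⟩
    have e4 : ∀ S ⊆ M.E, Disjoint (f '' range Sum.inr) ((f ∘ Sum.inl) '' S) := by
      intro S hS
      rw [Set.disjoint_left]
      rintro _ ⟨_, ⟨b, rfl⟩, rfl⟩ ⟨x, hx, hxb⟩
      have := h.inj (hE x (hS hx)) (hEr b) hxb
      simp at this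
    rw [← e1, h.indep _ e2, image_union, image_image, e3]
    exact routing_sinks (by
      rintro _ ⟨_, ⟨b, rfl⟩, rfl⟩ v
      exact h.sink _ (hC b) v) (e4 X hX) (e4 _ hsub)

/-- **Adding coloops does not change the arc-complexity.** -/
lemma arcC_addC [Finite β] {M : Matroid α} (hM : ∃ (V : Type) (_ : Finite V) (A : Set (V × V))
    (T : Set α) (f : α → V), IsStandardRep M V A T f) : arcC (addC M β) = arcC M := by
  obtain ⟨V₀, hV₀, A₀, T₀, f₀, h₀⟩ := hM
  apply le_antisymm
  · obtain ⟨V, hV, A, T, f, hf, hA⟩ := Nat.sInf_mem (s := {k | ∃ (V : Type) (_ : Finite V)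
      (A : Set (V × V)) (T : Set α) (f : α → V), IsStandardRep M V A T f ∧ A.ncard = k})
      ⟨_, V₀, hV₀, A₀, T₀, f₀, h₀, rfl⟩
    refine Nat.sInf_le ⟨V ⊕ β, inferInstance, _, _, _, rep_extend hf, ?_⟩
    rw [mapArcs, Set.ncard_image_of_injective, hA]
    · rfl
    · rintro ⟨a, b⟩ ⟨c, d⟩ h
      simpa using h
  · obtain ⟨V, hV, A, T, f, hf, hA⟩ := Nat.sInf_mem (s := {k | ∃ (V : Type) (_ : Finite V)
      (A : Set (V × V)) (T : Set (α ⊕ β)) (f : α ⊕ β → V),
        IsStandardRep (addC M β) V A T f ∧ A.ncard = k})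
      ⟨_, V₀ ⊕ β, inferInstance, _, _, _, rep_extend h₀, rfl⟩
    exact Nat.sInf_le ⟨V, hV, _, _, _, rep_restrict hf, hA⟩

lemma isGammoid_of_rep {M : Matroid α} (hM : ∃ (V : Type) (_ : Finite V) (A : Set (V × V))
    (T : Set α) (f : α → V), IsStandardRep M V A T f) : IsGammoid M := by
  obtain ⟨V, hV, A, T, f, h⟩ := hM
  exact ⟨V, hV, A, f '' T, f, h.inj, h.indep⟩

end Coloops

/-! ### Gammoids of bipartite digraphs -/

section Bipartite

open Pool.Agent.Helper442.FE in
/-- the gammoid of a digraph on its vertex set -/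
lemma exists_gammoid {V : Type} [Finite V] (A : Set (V × V)) (T : Set V) :
    ∃ M : Matroid V, M.E = univ ∧ ∀ X, M.Indep X ↔ ∃ R, IsRouting A R X T := by
  obtain ⟨M, hM1, hM2⟩ := exists_induced (fun u v => (u, v) ∈ A) (Matroid.freeOn T) univ
  refine ⟨M, hM1, fun X => ?_⟩
  rw [hM2]
  constructor
  · rintro ⟨_, Y, hY, P, h1, h2, h3, h4⟩
    rw [Matroid.freeOn_indep_iff] at hY
    refine ⟨P, h1, h2, ?_, ?_⟩
    · intro x hx
      rw [← h3] at hx
      exact hx
    · intro p hp
      obtain ⟨t, ht⟩ : ∃ t, p.getLast? = some t := by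
        have h0 := (h1 p hp).1
        rcases hp0 : p.getLast? with _ | t
        · exact absurd (List.getLast?_eq_none_iff.1 hp0) h0
        · exact ⟨t, rfl⟩
      exact ⟨t, hY (by rw [← h4]; exact ⟨p, hp, ht⟩), ht⟩
  · rintro ⟨R, h1, h2, h3, h4⟩
    refine ⟨subset_univ _, {y | ∃ p ∈ {p ∈ R | ∃ x ∈ X, p.head? = some x}, p.getLast? = some y},
      ?_, {p ∈ R | ∃ x ∈ X, p.head? = some x}, fun p hp => h1 p hp.1,
      fun p hp q hq => h2 p hp.1 q hq.1, ?_, rfl⟩
    · rw [Matroid.freeOn_indep_iff]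
      rintro y ⟨p, ⟨hp, _⟩, hpy⟩
      obtain ⟨t, ht, hpt⟩ := h4 p hp
      rw [hpy, Option.some.injEq] at hpt
      rw [hpt]
      exact ht
    · ext x
      constructor
      · rintro ⟨p, ⟨_, y, hy, hpy⟩, hpx⟩
        rw [hpy, Option.some.injEq] at hpx
        rw [← hpx]
        exact hy
      · intro hx
        obtain ⟨p, hp, hpx⟩ := h3 x hx
        exact ⟨p, ⟨hp, x, hx, hpx⟩, hpx⟩

variable {m : ℕ}

/-- the arcs of the bipartite digraph -/
def bArcs (G : Fin m → Fin m → Bool) : Set ((Fin m ⊕ Fin m) × (Fin m ⊕ Fin m)) :=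
  {p | ∃ i j, G i j = true ∧ p = (Sum.inl i, Sum.inr j)}

/-- the gammoid of the bipartite digraph -/
noncomputable def bM (G : Fin m → Fin m → Bool) : Matroid (Fin m ⊕ Fin m) :=
  (exists_gammoid (bArcs G) (range Sum.inr)).choose

lemma bM_ground (G : Fin m → Fin m → Bool) : (bM G).E = univ :=
  (exists_gammoid (bArcs G) (range Sum.inr)).choose_spec.1

lemma bM_indep (G : Fin m → Fin m → Bool) (X : Set (Fin m ⊕ Fin m)) :
    (bM G).Indep X ↔ ∃ R, IsRouting (bArcs G) R X (range Sum.inr) :=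
  (exists_gammoid (bArcs G) (range Sum.inr)).choose_spec.2 X

lemma bM_rep (G : Fin m → Fin m → Bool) :
    IsStandardRep (bM G) (Fin m ⊕ Fin m) (bArcs G) (range Sum.inr) id where
  inj := fun _ _ _ _ h => h
  subset := by rw [bM_ground]; exact subset_univ _
  sink := by
    rintro _ ⟨j, rfl⟩ v ⟨i, j', _, h⟩
    simp at h
  source := by
    rintro (i | j) _ hT v ⟨i', j', _, h⟩
    · simp at h
    · exact hT ⟨j, rfl⟩
  indep := by
    intro X _
    rw [bM_indep, image_id, image_id]

/-- the bipartite digraph can be read off the matroid -/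
lemma bM_test (G : Fin m → Fin m → Bool) (i j : Fin m) :
    (bM G).Indep (insert (Sum.inl i) (Sum.inr '' {j' | j' ≠ j})) ↔ G i j = true := by
  rw [bM_indep]
  have hsink : ∀ (j : Fin m) v, (Sum.inr j, v) ∉ bArcs G := by
    rintro j v ⟨i', j', _, h⟩
    simp at h
  constructor
  · rintro ⟨R, h1, h2, h3, h4⟩
    obtain ⟨p, hp, hpi⟩ := h3 _ (mem_insert _ _)
    obtain ⟨_, ⟨j', rfl⟩, hlast⟩ := h4 p hp
    have hjj : j' = j := by
      by_contra hne
      obtain ⟨q, hq, hqj⟩ := h3 (Sum.inr j') (mem_insert_of_mem _ ⟨j', hne, rfl⟩)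
      have h5 := eq_of_head_sink (hsink j') (h1 q hq) hqj
      have h6 : p = q := by
        by_contra hne
        exact h2 p hp q hq hne (List.mem_of_getLast? hlast)
          (by rw [h5]; exact List.mem_singleton_self _)
      rw [h6, h5, List.head?_cons, Option.some.injEq] at hpi
      simp at hpi
    subst hjj
    have hch := (h1 p hp).2.2
    rcases p with _ | ⟨x, _ | ⟨y, l⟩⟩
    · simp at hpi
    · rw [List.head?_cons, Option.some.injEq] at hpi
      simp [hpi] at hlast
    · rw [List.head?_cons, Option.some.injEq] at hpi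
      rw [List.isChain_cons_cons, hpi] at hch
      obtain ⟨i', j'', hG, hij⟩ := hch.1
      simp only [Prod.mk.injEq, Sum.inl.injEq] at hij
      rcases l with _ | ⟨z, l⟩
      · simp only [List.getLast?_cons_cons, List.getLast?_singleton, Option.some.injEq] at hlast
        rw [hlast, Sum.inr.injEq] at hij
        rw [hij.1, hij.2]
        exact hG
      · rw [List.isChain_cons_cons, hij.2] at hch
        exact absurd hch.2.1 (hsink _ _)
  · intro hG
    refine ⟨insert [Sum.inl i, Sum.inr j] ((fun j' => [Sum.inr j']) '' {j' | j' ≠ j}),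
      ?_, ?_, ?_, ?_⟩
    · rintro p (rfl | ⟨j', _, rfl⟩)
      · refine ⟨by simp, by simp, ?_⟩
        simp only [List.isChain_cons_cons, List.isChain_singleton, and_true]
        exact ⟨i, j, hG, rfl⟩
      · exact ⟨by simp, by simp, by simp⟩
    · rintro p (rfl | ⟨j', hj', rfl⟩) q (rfl | ⟨j'', hj'', rfl⟩) hpq
      · exact absurd rfl hpq
      · intro v hv hv'
        rw [List.mem_singleton] at hv'
        subst hv'
        simp at hv
        exact hj'' hv
      · intro v hv' hv
        rw [List.mem_singleton] at hv'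
        subst hv'
        simp at hv
        exact hj' hv
      · intro v hv hv'
        rw [List.mem_singleton] at hv hv'
        apply hpq
        show [Sum.inr j'] = [Sum.inr j'']
        rw [← hv, ← hv']
    · rintro x (rfl | ⟨j', hj', rfl⟩)
      · exact ⟨_, mem_insert _ _, rfl⟩
      · exact ⟨_, mem_insert_of_mem _ ⟨j', hj', rfl⟩, rfl⟩
    · rintro p (rfl | ⟨j', _, rfl⟩)
      · exact ⟨_, ⟨j, rfl⟩, rfl⟩
      · exact ⟨_, ⟨j', rfl⟩, rfl⟩

end Bipartite

/-! ### Counting -/

section Counting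

/-- the independence predicate coded by `(f, T, a)` -/
def dec {α : Type} {L k : ℕ} (d : (α → Fin L) × Set α × (Fin k → Option (Fin L × Fin L)))
    (X : Set α) : Prop :=
  ∃ R, IsRouting {p | ∃ i, d.2.2 i = some p} R (d.1 '' X) (d.1 '' d.2.1)

lemma exists_code {α : Type} [Finite α] {M : Matroid α} {k L : ℕ} (hE : M.E = univ)
    {V : Type} [Finite V] {A : Set (V × V)} {T : Set α} {f : α → V}
    (h : IsStandardRep M V A T f) (hA : A.ncard ≤ k) (hL : Nat.card α + 2 * k ≤ L) (hL0 : 0 < L) :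
    ∃ d : (α → Fin L) × Set α × (Fin k → Option (Fin L × Fin L)), ∀ X, M.Indep X ↔ dec d X := by
  classical
  let W : Set V := f '' univ ∪ (Prod.fst '' A ∪ Prod.snd '' A)
  have hW : W.ncard ≤ L := by
    refine (Set.ncard_union_le _ _).trans ((Nat.add_le_add (Set.ncard_image_le (Set.toFinite _))
      ((Set.ncard_union_le _ _).trans (Nat.add_le_add (Set.ncard_image_le (Set.toFinite _))
        (Set.ncard_image_le (Set.toFinite _))))).trans ?_)
    rw [Set.ncard_univ]
    omega
  have hAW : ∀ p ∈ A, p.1 ∈ W ∧ p.2 ∈ W := fun p hp =>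
    ⟨Or.inr (Or.inl ⟨p, hp, rfl⟩), Or.inr (Or.inr ⟨p, hp, rfl⟩)⟩
  obtain ⟨g, hg⟩ : ∃ g : V → Fin L, InjOn g W := by
    have : Fintype V := Fintype.ofFinite V
    obtain ⟨e⟩ : Nonempty (W ↪ Fin L) := by
      apply Function.Embedding.nonempty_of_card_le
      rw [Fintype.card_fin, ← Nat.card_eq_fintype_card, Nat.card_coe_set_eq]
      exact hW
    refine ⟨fun v => if hv : v ∈ W then e ⟨v, hv⟩ else ⟨0, hL0⟩, ?_⟩
    intro x hx y hy hxy
    simp only [dif_pos hx, dif_pos hy] at hxy
    exact congrArg Subtype.val (e.injective hxy)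
  obtain ⟨a, ha⟩ : ∃ a : Fin k → Option (Fin L × Fin L), {p | ∃ i, a i = some p} = mapArcs g A := by
    have hA' : (mapArcs g A).ncard ≤ k := (Set.ncard_image_le (Set.toFinite _)).trans hA
    have : Fintype V := Fintype.ofFinite V
    obtain ⟨e⟩ : Nonempty (mapArcs g A ↪ Fin k) := by
      apply Function.Embedding.nonempty_of_card_le
      rw [Fintype.card_fin, ← Nat.card_eq_fintype_card, Nat.card_coe_set_eq]
      exact hA'
    refine ⟨fun i => if h : ∃ p : mapArcs g A, e p = i then some h.choose.1 else none, ?_⟩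
    ext p
    constructor
    · rintro ⟨i, hi⟩
      by_cases h1 : ∃ p : mapArcs g A, e p = i
      · simp only [dif_pos h1, Option.some.injEq] at hi
        rw [← hi]
        exact h1.choose.2
      · simp only [dif_neg h1] at hi
        simp at hi
    · intro hp
      have h1 : ∃ q : mapArcs g A, e q = e ⟨p, hp⟩ := ⟨_, rfl⟩
      refine ⟨e ⟨p, hp⟩, ?_⟩
      simp only [dif_pos h1, Option.some.injEq]
      rw [e.injective h1.choose_spec]
  refine ⟨(g ∘ f, T, a), fun X => ?_⟩
  rw [h.indep X (by rw [hE]; exact subset_univ _), dec]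
  show _ ↔ ∃ R, IsRouting {p | ∃ i, a i = some p} R ((g ∘ f) '' X) ((g ∘ f) '' T)
  rw [ha, image_comp, image_comp]
  exact transport hAW hg ((image_mono (subset_univ _)).trans subset_union_left)
    ((image_mono (subset_univ _)).trans subset_union_left)

lemma numeric (K : ℕ) : ∃ m : ℕ, 0 < m ∧
    (2 * m + 2 * (2 * K * m)) ^ (2 * m) * 2 ^ (2 * m) *
      ((2 * m + 2 * (2 * K * m)) * (2 * m + 2 * (2 * K * m)) + 1) ^ (2 * K * m) < 2 ^ (m * m) := by
  obtain ⟨c, hc⟩ : ∃ c, c = 2 + 4 * K := ⟨_, rfl⟩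
  obtain ⟨m, hm⟩ : ∃ m, m = 2 ^ (2 * c + 3) := ⟨_, rfl⟩
  have hm0 : 0 < m := by rw [hm]; positivity
  refine ⟨m, hm0, ?_⟩
  have hL : 2 * m + 2 * (2 * K * m) = c * m := by rw [hc]; ring
  rw [hL]
  have hL1 : 1 ≤ c * m := Nat.mul_pos (by omega) hm0
  calc (c * m) ^ (2 * m) * 2 ^ (2 * m) * (c * m * (c * m) + 1) ^ (2 * K * m)
      ≤ (c * m) ^ (2 * m) * 2 ^ (2 * m) * ((2 * (c * m)) ^ 2) ^ (2 * K * m) := by
        gcongr
        nlinarith
    _ = (2 * (c * m)) ^ (2 * m) * (2 * (c * m)) ^ (2 * (2 * K * m)) := by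
        rw [← pow_mul, Nat.mul_pow 2 (c * m) (2 * m)]
        ring
    _ = (2 * (c * m)) ^ (2 * m + 2 * (2 * K * m)) := by rw [← pow_add]
    _ = ((2 * (c * m)) ^ c) ^ m := by rw [hL, pow_mul]
    _ < (2 ^ m) ^ m := by
        apply Nat.pow_lt_pow_left _ (by omega)
        have h1 : c < 2 ^ c := Nat.lt_two_pow_self
        calc (2 * (c * m)) ^ c ≤ (2 * (2 ^ c * m)) ^ c := by gcongr
          _ = 2 ^ ((3 * c + 4) * c) := by
              rw [hm, ← pow_add, ← pow_succ', ← pow_mul]
              congr 1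
              ring
          _ < 2 ^ m := by
              apply Nat.pow_lt_pow_right (by norm_num)
              rw [hm, pow_add, pow_mul']
              nlinarith
    _ = 2 ^ (m * m) := by rw [← pow_mul]

/-- **The ratio is unbounded.** -/
lemma unbounded (K : ℕ) : ∃ (m : ℕ) (G : Fin m → Fin m → Bool), 0 < m ∧
    2 * K * m < arcC (bM G) := by
  obtain ⟨m, hm0, hm⟩ := numeric K
  by_contra hcon
  push Not at hcon
  have hk : ∀ G : Fin m → Fin m → Bool, arcC (bM G) ≤ 2 * K * m := fun G => hcon m G hm0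
  have hcode : ∀ G : Fin m → Fin m → Bool, ∃ d : ((Fin m ⊕ Fin m) →
      Fin (2 * m + 2 * (2 * K * m))) × Set (Fin m ⊕ Fin m) ×
      (Fin (2 * K * m) → Option (Fin (2 * m + 2 * (2 * K * m)) × Fin (2 * m + 2 * (2 * K * m)))),
      ∀ X, (bM G).Indep X ↔ dec d X := by
    intro G
    obtain ⟨V, hV, A, T, f, hf, hA⟩ := Nat.sInf_mem (s := {k | ∃ (V : Type) (_ : Finite V)
      (A : Set (V × V)) (T : Set (Fin m ⊕ Fin m)) (f : Fin m ⊕ Fin m → V),
        IsStandardRep (bM G) V A T f ∧ A.ncard = k})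
      ⟨_, _, inferInstance, _, _, _, bM_rep G, rfl⟩
    exact exists_code (bM_ground G) hf (hA.trans_le (hk G)) (by
      rw [Nat.card_eq_fintype_card, Fintype.card_sum, Fintype.card_fin]; omega) (by omega)
  choose c hc using hcode
  have hinj : Function.Injective c := by
    intro G G' hG
    funext i j
    have h1 := bM_test G i j
    have h2 := bM_test G' i j
    rw [hc, hG, ← hc, h2] at h1
    rcases h3 : G i j <;> rcases h4 : G' i j <;> simp_all
  have h1 := Fintype.card_le_of_injective c hinj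
  simp only [Fintype.card_pi, Fintype.card_prod, Fintype.card_fin, Fintype.card_set,
    Fintype.card_sum, Fintype.card_option, Fintype.card_bool, Finset.prod_const,
    Finset.card_univ] at h1
  rw [← pow_mul] at h1
  have h2 : m + m = 2 * m := by ring
  rw [h2] at h1
  rw [← mul_assoc] at h1
  omega

end Counting

/-- **The ratios are dense in the positive reals.** Every open interval `(a, b)` with
`0 < a < b` contains a ratio `arcC(M) / |E|` of a gammoid `M` on a nonempty finite ground set. -/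
theorem result : ∀ a b : ℝ, 0 < a → a < b → ∃ q ∈ ratios, a < q ∧ q < b := by
  intro a b ha hab
  have hb : 0 < b := ha.trans hab
  obtain ⟨K, hK⟩ := exists_nat_gt (b + a * b / (b - a))
  have hpos : 0 < a * b / (b - a) := by
    have : 0 < b - a := sub_pos.2 hab
    positivity
  obtain ⟨m, G, hm, hG⟩ := unbounded K
  obtain ⟨x, hx⟩ : ∃ x : ℕ, x = arcC (bM G) := ⟨_, rfl⟩
  rw [← hx] at hG
  have hxK : (2 * K * m : ℝ) < x := by exact_mod_cast hG
  have hm1 : (1 : ℝ) ≤ m := by exact_mod_cast hm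
  have hK0 : (0 : ℝ) < K := by linarith
  obtain ⟨N, hN⟩ : ∃ N : ℕ, N = ⌊(x : ℝ) / b⌋₊ + 1 := ⟨_, rfl⟩
  have hN1 : (x : ℝ) / b < N := by
    rw [hN]
    exact_mod_cast Nat.lt_floor_add_one _
  have hN2 : (N : ℝ) ≤ x / b + 1 := by
    rw [hN]
    push_cast
    have := Nat.floor_le (show (0 : ℝ) ≤ x / b by positivity)
    linarith
  have hNm : 2 * m ≤ N := by
    have h1 : (2 * m : ℝ) < x / b := by
      rw [lt_div_iff₀ hb]
      have h2 : b < K := by linarith
      nlinarith
    have h3 : (2 * m : ℝ) < N := h1.trans hN1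
    have h4 : 2 * m < N := by exact_mod_cast h3
    exact h4.le
  obtain ⟨t, rfl⟩ := Nat.exists_eq_add_of_le hNm
  have hrep : ∃ (V : Type) (_ : Finite V) (A : Set (V × V)) (T : Set (Fin m ⊕ Fin m))
      (f : Fin m ⊕ Fin m → V), IsStandardRep (bM G) V A T f :=
    ⟨_, inferInstance, _, _, _, bM_rep G⟩
  have hrep' : ∃ (V : Type) (_ : Finite V) (A : Set (V × V)) (T : Set ((Fin m ⊕ Fin m) ⊕ Fin t))
      (f : (Fin m ⊕ Fin m) ⊕ Fin t → V), IsStandardRep (addC (bM G) (Fin t)) V A T f := by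
    obtain ⟨V, hV, A, T, f, h⟩ := hrep
    exact ⟨V ⊕ Fin t, inferInstance, _, _, _, rep_extend h⟩
  have hE : (addC (bM G) (Fin t)).E = univ := by
    rw [addC_ground, bM_ground]
    ext z
    rcases z with z | z <;> simp
  have hcard : (addC (bM G) (Fin t)).E.ncard = 2 * m + t := by
    rw [hE, Set.ncard_univ, Nat.card_eq_fintype_card, Fintype.card_sum, Fintype.card_sum,
      Fintype.card_fin, Fintype.card_fin]
    ring
  have hN0 : (0 : ℝ) < ((2 * m + t : ℕ) : ℝ) := by
    have : 0 < 2 * m + t := by omega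
    exact_mod_cast this
  refine ⟨(arcC (addC (bM G) (Fin t)) : ℝ) / ((addC (bM G) (Fin t)).E.ncard : ℝ),
    ⟨_, addC (bM G) (Fin t), ?_, ?_, isGammoid_of_rep hrep', rfl⟩, ?_⟩
  · exact Set.toFinite _
  · rw [hE]
    exact ⟨Sum.inl (Sum.inl ⟨0, hm⟩), mem_univ _⟩
  · rw [arcC_addC hrep, hcard, ← hx, lt_div_iff₀ hN0, div_lt_iff₀ hN0]
    constructor
    · have h1 : a * b / (b - a) < x := by nlinarith
      have h2 : 0 < b - a := sub_pos.2 hab
      have h3 : a * b < x * (b - a) := by rwa [div_lt_iff₀ h2] at h1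
      have h4 : a * (x / b + 1) < x := by
        have h5 : a * (x / b + 1) = (a * x + a * b) / b := by field_simp
        rw [h5, div_lt_iff₀ hb]
        nlinarith
      exact (mul_le_mul_of_nonneg_left hN2 ha.le).trans_lt h4
    · rw [div_lt_iff₀ hb] at hN1
      linarith

end Pool.Agent.Results.MP_1bde1f_co.DenseRatios
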